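import Mathlib
import Pool.Agent.helper89.PU.Spec1

/-!
# Project PU (MP_2e0e07_nt), row BSG: the conjugates of an element span (lifting of the residual statement)
-/

set_option autoImplicit false

namespace Pool.Agent.PV

open Matrix Polynomial Pool.Agent.GO Pool.Agent.AR Pool.Agent.RG Pool.Agent.HZ Pool.Agent.DS
  Pool.Agent.AX Pool.Agent.UM Pool.Agent.PU MeasureTheory NumberField

/-- the ring of the elements of norm at most `1` -/
def BSG_O (F : Type) [NormedField F] [IsUltrametricDist F] : Subring F where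
  carrier := {x | ‖x‖ ≤ 1}
  mul_mem' := fun {a b} ha hb => by
    show ‖a * b‖ ≤ 1
    simpa using nmul (F := F) ha hb
  one_mem' := by
    show ‖(1 : F)‖ ≤ 1
    rw [norm_one]
  add_mem' := fun {a b} ha hb => nadd (F := F) ha hb
  zero_mem' := by
    show ‖(0 : F)‖ ≤ 1
    rw [norm_zero]
    exact zero_le_one
  neg_mem' := fun {a} ha => by
    show ‖-a‖ ≤ 1
    rw [norm_neg]
    exact ha

/-- the reduction as a homomorphism -/
def BSG_hom {F κ : Type} [NormedField F] [IsUltrametricDist F] [Field κ] {red : F → κ} (hred : IsRed red) :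
    BSG_O F →+* κ where
  toFun := fun x => red x.1
  map_one' := hred.one
  map_mul' := fun x y => hred.mul x.1 y.1 x.2 y.2
  map_zero' := (hred.zero_iff 0 (by rw [norm_zero]; exact zero_le_one)).2 (by rw [norm_zero]; exact zero_lt_one)
  map_add' := fun x y => hred.add x.1 y.1 x.2 y.2

theorem BSG_d3_map {A B : Type*} [CommRing A] [CommRing B] (f : A →+* B) (X Y Z : Matrix (Fin 2) (Fin 2) A) :
    d3 (X.map f) (Y.map f) (Z.map f) = f (d3 X Y Z) := by
  unfold d3
  rw [Matrix.det_fin_three, Matrix.det_fin_three]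
  simp

theorem BSG_d3_scal {A : Type*} [CommRing A] (x c : A) (X Y Z : Matrix (Fin 2) (Fin 2) A) :
    d3 (x • X + c • 1) (x • Y + c • 1) (x • Z + c • 1) = x ^ 3 * d3 X Y Z := by
  unfold d3
  rw [Matrix.det_fin_three, Matrix.det_fin_three]
  simp
  ring

/-- a matrix with entries of norm at most `1` -/
def BSG_lift {F : Type} [NormedField F] [IsUltrametricDist F] (M : Matrix (Fin 2) (Fin 2) F)
    (hM : ∀ i j, ‖M i j‖ ≤ 1) : Matrix (Fin 2) (Fin 2) (BSG_O F) := fun i j => ⟨M i j, hM i j⟩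

theorem BSG_lift_val {F : Type} [NormedField F] [IsUltrametricDist F] (M : Matrix (Fin 2) (Fin 2) F)
    (hM : ∀ i j, ‖M i j‖ ≤ 1) : (BSG_lift M hM).map (BSG_O F).subtype = M := rfl

theorem BSG_lift_red {F κ : Type} [NormedField F] [IsUltrametricDist F] [Field κ] {red : F → κ} (hred : IsRed red)
    (M : Matrix (Fin 2) (Fin 2) F) (hM : ∀ i j, ‖M i j‖ ≤ 1) :
    (BSG_lift M hM).map (BSG_hom hred) = M.map red := rfl

theorem BSG (hBSP : BSP_stmt) : BSG_stmt := by
  intro p _ Γ F κ _ _ _ _ _ _ red hred R hR S hS hp hbig h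
  have := ultra p F
  by_cases h0 : nu (R h) = 0
  · refine ⟨1, 1, 1, ?_⟩
    rw [h0]
    have h1 : (0 : ℝ) ^ 3 = 0 := by norm_num
    rw [h1]
    exact norm_nonneg _
  obtain ⟨x, hx, hx1⟩ : ∃ x : F, ‖x‖ = nu (R h) ∧
      (x = R h 0 1 ∨ x = R h 1 0 ∨ x = R h 0 0 - R h 1 1) := by
    rcases nu_cases (R h) with h1 | h1 | h1
    · exact ⟨_, h1.symm, Or.inl rfl⟩
    · exact ⟨_, h1.symm, Or.inr (Or.inl rfl)⟩
    · exact ⟨_, h1.symm, Or.inr (Or.inr rfl)⟩
  have hx0 : x ≠ 0 := by
    intro h1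
    rw [h1, norm_zero] at hx
    exact h0 hx.symm
  set Y : Matrix (Fin 2) (Fin 2) F := x⁻¹ • (R h - R h 1 1 • (1 : Matrix (Fin 2) (Fin 2) F)) with hY
  have hY1 : ∀ i j, ‖Y i j‖ ≤ 1 := by
    intro i j
    have h1 : Y i j = x⁻¹ * (R h - R h 1 1 • (1 : Matrix (Fin 2) (Fin 2) F)) i j := rfl
    rw [h1, norm_mul, norm_inv, hx]
    have h2 := entry_sub_le (R h) i j
    have h3 : 0 < nu (R h) := lt_of_le_of_ne (nu_nonneg _) (Ne.symm h0)
    rw [inv_mul_le_iff₀ h3, mul_one]
    exact h2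
  have hYR : R h = x • Y + R h 1 1 • (1 : Matrix (Fin 2) (Fin 2) F) := by
    rw [hY, smul_smul, mul_inv_cancel₀ hx0, one_smul, sub_add_cancel]
  have hns : ∀ c : κ, Y.map red ≠ c • 1 := by
    intro c hc
    have e01 : red (Y 0 1) = 0 := by
      have := congrFun (congrFun hc 0) 1
      simpa using this
    have e10 : red (Y 1 0) = 0 := by
      have := congrFun (congrFun hc 1) 0
      simpa using this
    have e11 : red (Y 1 1) = c := by
      have := congrFun (congrFun hc 1) 1
      simpa using this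
    have e00 : red (Y 0 0) = c := by
      have := congrFun (congrFun hc 0) 0
      simpa using this
    have hY11 : Y 1 1 = 0 := by
      rw [hY]
      simp
    have hr0 : red 0 = 0 := (hred.zero_iff 0 (by rw [norm_zero]; exact zero_le_one)).2 (by rw [norm_zero]; exact zero_lt_one)
    rw [hY11, hr0] at e11
    rw [← e11] at e00
    have n01 := (hred.zero_iff _ (hY1 0 1)).1 e01
    have n10 := (hred.zero_iff _ (hY1 1 0)).1 e10
    have n00 := (hred.zero_iff _ (hY1 0 0)).1 e00
    rcases hx1 with h1 | h1 | h1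
    · have h2 : Y 0 1 = 1 := by
        rw [hY]
        simp only [Matrix.smul_apply, Matrix.sub_apply, smul_eq_mul]
        rw [← h1]
        simp [hx0]
      rw [h2, norm_one] at n01
      exact lt_irrefl _ n01
    · have h2 : Y 1 0 = 1 := by
        rw [hY]
        simp only [Matrix.smul_apply, Matrix.sub_apply, smul_eq_mul]
        rw [← h1]
        simp [hx0]
      rw [h2, norm_one] at n10
      exact lt_irrefl _ n10
    · have h2 : Y 0 0 = 1 := by
        rw [hY]
        simp only [Matrix.smul_apply, Matrix.sub_apply, smul_eq_mul, Matrix.one_apply_eq, mul_one]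
        rw [← h1]
        simp [hx0]
      rw [h2, norm_one] at n00
      exact lt_irrefl _ n00
  clear_value Y
  obtain ⟨a, b, c, habc⟩ := hBSP p S hp hbig (Y.map red) hns
  refine ⟨a, b, c, ?_⟩
  set L : Γ → Matrix (Fin 2) (Fin 2) (BSG_O F) := fun g =>
    BSG_lift (R g) (hR g) * BSG_lift Y hY1 * BSG_lift (R g⁻¹) (hR g⁻¹) with hL
  have hL1 : ∀ g, (L g).map (BSG_O F).subtype = R g * Y * R g⁻¹ := by
    intro g
    rw [hL]
    simp only [Matrix.map_mul, BSG_lift_val]
  have hL2 : ∀ g, (L g).map (BSG_hom hred) = S g * Y.map red * S g⁻¹ := by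
    intro g
    rw [hL]
    simp only [Matrix.map_mul, BSG_lift_red, hS]
  have hD : BSG_hom hred (d3 (L a) (L b) (L c)) ≠ 0 := by
    rw [← BSG_d3_map, hL2, hL2, hL2]
    exact habc
  have hD1 : 1 ≤ ‖((d3 (L a) (L b) (L c) : BSG_O F) : F)‖ := by
    by_contra h1
    rw [not_le] at h1
    exact hD ((hred.zero_iff _ (d3 (L a) (L b) (L c)).2).2 h1)
  have hRg : ∀ g, R (g * h * g⁻¹) = x • (R g * Y * R g⁻¹) + R h 1 1 • (1 : Matrix (Fin 2) (Fin 2) F) := by
    intro g
    have e1 : ∀ c : F, R g * (x • Y + c • (1 : Matrix (Fin 2) (Fin 2) F)) * R g⁻¹ =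
        x • (R g * Y * R g⁻¹) + c • (R g * R g⁻¹) := by
      intro c
      simp only [Matrix.mul_add, Matrix.add_mul, Matrix.mul_smul, Matrix.smul_mul, Matrix.mul_one]
    rw [map_mul, map_mul]
    calc R g * R h * R g⁻¹ = R g * (x • Y + R h 1 1 • (1 : Matrix (Fin 2) (Fin 2) F)) * R g⁻¹ := by rw [← hYR]
      _ = _ := by rw [e1, hom_mul_inv']
  rw [hRg, hRg, hRg, BSG_d3_scal, norm_mul, norm_pow, hx, ← hL1, ← hL1, ← hL1, BSG_d3_map]
  exact le_mul_of_one_le_right (by have := nu_nonneg (R h); positivity) hD1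

end Pool.Agent.PV
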